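import Mathlib

/-!
MP_f95cc0_co: an entropy lower bound for the number of odd proper boxes in a partition
of `[n]^d`, better than the known one for `n = 5` and `n = 7`.
-/

namespace Pool.Agent.Results.MP_f95cc0_co.EntropyLowerBound

open Finset

/-- Convexity of `t log t`: `a log a + b log b ≤ (a + b - 1) log (a + b - 1)` for `a, b ≥ 1`. -/
theorem merge {a b : ℝ} (ha : 1 ≤ a) (hb : 1 ≤ b) :
    a * Real.log a + b * Real.log b ≤ (a + b - 1) * Real.log (a + b - 1) := by
  have hc := Real.convexOn_mul_log
  rcases eq_or_lt_of_le (show (2 : ℝ) ≤ a + b by linarith) with h | h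
  · have h1 : a = 1 := by linarith
    have h2 : b = 1 := by linarith
    subst h1; subst h2; norm_num
  · have hpos : 0 < a + b - 2 := by linarith
    set l : ℝ := (b - 1) / (a + b - 2) with hl
    have hl0 : 0 ≤ l := div_nonneg (by linarith) hpos.le
    have hl1 : 0 ≤ 1 - l := by
      rw [hl, sub_nonneg, div_le_one hpos]; linarith
    have e1 : l * 1 + (1 - l) * (a + b - 1) = a := by
      rw [hl]; field_simp; ring
    have e2 : (1 - l) * 1 + l * (a + b - 1) = b := by
      rw [hl]; field_simp; ring
    have m1 : (1 : ℝ) ∈ Set.Ici (0 : ℝ) := by simp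
    have m2 : (a + b - 1 : ℝ) ∈ Set.Ici (0 : ℝ) := by simp only [Set.mem_Ici]; linarith
    have k1 := hc.2 m1 m2 hl0 hl1 (by ring)
    have k2 := hc.2 m1 m2 hl1 hl0 (by ring)
    simp only [smul_eq_mul] at k1 k2
    rw [e1] at k1
    rw [e2] at k2
    simp only [Real.log_one, mul_zero, zero_add] at k1 k2
    linarith

/-- The line lemma. -/
theorem line {n : ℕ} (hn : Odd n) (D : Fin n → Finset (Fin n)) (hmem : ∀ y, y ∈ D y)
    (heq : ∀ y z, z ∈ D y → D z = D y) (hodd : ∀ y, Odd (D y).card)
    (hprop : ∀ y, D y ≠ Finset.univ) :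
    ∑ y, Real.log ((D y).card : ℝ) ≤ ((n : ℝ) - 2) * Real.log ((n : ℝ) - 2) := by
  classical
  have hnpos : 0 < n := hn.pos
  let y0 : Fin n := ⟨0, hnpos⟩
  set A := D y0 with hA
  obtain ⟨y1, hy1⟩ : ∃ y1, y1 ∉ A := by
    by_contra h
    push Not at h
    exact hprop y0 (Finset.eq_univ_iff_forall.mpr h)
  set B := D y1 with hB
  have hAB : Disjoint A B := by
    rw [Finset.disjoint_left]
    intro z hzA hzB
    have h1 := heq y0 z hzA
    have h2 := heq y1 z hzB
    apply hy1
    rw [hA, ← h1, h2]
    exact hmem y1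
  set C := (A ∪ B)ᶜ with hC
  have hcardAB : (A ∪ B).card = A.card + B.card := Finset.card_union_of_disjoint hAB
  have hcardC : A.card + B.card + C.card = n := by
    rw [← hcardAB, hC, Finset.card_add_card_compl, Fintype.card_fin]
  have hCpos : 0 < C.card := by
    rcases Nat.eq_zero_or_pos C.card with h | h
    · exfalso
      have h1 : Even (A.card + B.card) := (hodd y0).add_odd (hodd y1)
      rw [h, add_zero] at hcardC
      rw [hcardC] at h1
      exact (Nat.not_even_iff_odd.mpr hn) h1
    · exact h
  have hA1 : 1 ≤ A.card := (hodd y0).pos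
  have hB1 : 1 ≤ B.card := (hodd y1).pos
  have hsum : ∑ y, Real.log ((D y).card : ℝ) =
      ∑ y ∈ A, Real.log ((D y).card : ℝ) + ∑ y ∈ B, Real.log ((D y).card : ℝ) +
        ∑ y ∈ C, Real.log ((D y).card : ℝ) := by
    rw [← Finset.sum_union hAB, hC, Finset.sum_add_sum_compl]
  have hSA : ∑ y ∈ A, Real.log ((D y).card : ℝ) = (A.card : ℝ) * Real.log A.card := by
    rw [Finset.sum_congr rfl (fun y hy => by rw [heq y0 y hy]), Finset.sum_const, nsmul_eq_mul]
  have hSB : ∑ y ∈ B, Real.log ((D y).card : ℝ) = (B.card : ℝ) * Real.log B.card := by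
    rw [Finset.sum_congr rfl (fun y hy => by rw [heq y1 y hy]), Finset.sum_const, nsmul_eq_mul]
  have hSC : ∑ y ∈ C, Real.log ((D y).card : ℝ) ≤ (C.card : ℝ) * Real.log C.card := by
    have : ∀ y ∈ C, Real.log ((D y).card : ℝ) ≤ Real.log C.card := by
      intro y hy
      apply Real.log_le_log
      · exact_mod_cast (hodd y).pos
      · have hsub : D y ⊆ C := by
          intro z hz
          rw [hC, Finset.mem_compl, Finset.mem_union, not_or]
          have hDz := heq y z hz
          rw [hC, Finset.mem_compl, Finset.mem_union, not_or] at hy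
          constructor
          · intro hzA
            apply hy.1
            have := heq y0 z hzA
            rw [hA, ← this, hDz]
            exact hmem y
          · intro hzB
            apply hy.2
            have := heq y1 z hzB
            rw [hB, ← this, hDz]
            exact hmem y
        exact_mod_cast Finset.card_le_card hsub
    refine (Finset.sum_le_sum this).trans ?_
    rw [Finset.sum_const, nsmul_eq_mul]
  rw [hsum, hSA, hSB]
  have hA' : (1 : ℝ) ≤ A.card := by exact_mod_cast hA1
  have hB' : (1 : ℝ) ≤ B.card := by exact_mod_cast hB1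
  have hC' : (1 : ℝ) ≤ C.card := by exact_mod_cast hCpos
  have m1 := merge hA' hB'
  have m2 := merge (show (1 : ℝ) ≤ (A.card : ℝ) + B.card - 1 by linarith) hC'
  have hn' : (n : ℝ) = A.card + B.card + C.card := by exact_mod_cast hcardC.symm
  have e : (n : ℝ) - 2 = (A.card : ℝ) + B.card - 1 + C.card - 1 := by rw [hn']; ring
  rw [e]
  linarith

/-- Averaging over a coordinate. -/
theorem sum_update {n d : ℕ} (f : (Fin d → Fin n) → ℝ) (i : Fin d) :
    ∑ x : Fin d → Fin n, ∑ y : Fin n, f (Function.update x i y) = n * ∑ x, f x := by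
  classical
  rw [← Fintype.sum_prod_type']
  let e : (Fin d → Fin n) × Fin n ≃ (Fin d → Fin n) × Fin n :=
    { toFun := fun p => (Function.update p.1 i p.2, p.1 i)
      invFun := fun p => (Function.update p.1 i p.2, p.1 i)
      left_inv := by
        rintro ⟨x, y⟩
        simp
      right_inv := by
        rintro ⟨x, y⟩
        simp }
  have : ∑ p : (Fin d → Fin n) × Fin n, f (Function.update p.1 i p.2) =
      ∑ p : (Fin d → Fin n) × Fin n, f p.1 :=
    Fintype.sum_equiv e _ _ (fun p => rfl)
  rw [this, Fintype.sum_prod_type]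
  simp [Finset.mul_sum]

theorem jensen_term {M k v : ℝ} (hM : 0 < M) (hk : 0 < k) (hv : 0 < v) :
    Real.log (M / v) ≤ Real.log k + (M / k * v⁻¹ - 1) := by
  have h2 : 0 < M / k * v⁻¹ := by positivity
  have h3 := Real.log_le_sub_one_of_pos h2
  have h4 : Real.log (M / v) = Real.log k + Real.log (M / k * v⁻¹) := by
    rw [← Real.log_mul hk.ne' h2.ne']
    congr 1
    field_simp
  linarith

theorem log_bound {n d k : ℕ} (hn : Odd n) (P : Fin k → Fin d → Finset (Fin n))
    (hP : ∀ j i, Odd (P j i).card ∧ P j i ≠ Finset.univ)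
    (hpart : ∀ x : Fin d → Fin n, ∃! j, ∀ i, x i ∈ P j i) :
    0 < k ∧ (d : ℝ) * (Real.log n - ((n : ℝ) - 2) / n * Real.log ((n : ℝ) - 2)) ≤ Real.log k := by
  classical
  have hnpos : 0 < n := hn.pos
  have hnr : (0 : ℝ) < n := by exact_mod_cast hnpos
  choose J hJ hJu using hpart
  have hkpos : 0 < k := (Nat.zero_le _).trans_lt (J fun _ => ⟨0, hnpos⟩).2
  refine ⟨hkpos, ?_⟩
  have hkr : (0 : ℝ) < k := by exact_mod_cast hkpos
  have hcpos : ∀ j i, (0 : ℝ) < (P j i).card := fun j i => by exact_mod_cast (hP j i).1.pos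
  -- volumes
  set vol : Fin k → ℝ := fun j => ∏ i, ((P j i).card : ℝ) with hvol
  have hvpos : ∀ j, 0 < vol j := fun j => Finset.prod_pos fun i _ => hcpos j i
  have hfib : ∀ j, ((Finset.univ.filter fun x => J x = j).card : ℝ) = vol j := by
    intro j
    have : (Finset.univ.filter fun x => J x = j) = Fintype.piFinset (P j) := by
      ext x
      simp only [Finset.mem_filter, Finset.mem_univ, true_and, Fintype.mem_piFinset]
      constructor
      · rintro rfl; exact hJ x
      · intro h; exact (hJu x j h).symm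
    rw [this, Fintype.card_piFinset, hvol]
    push_cast
    rfl
  have hX : ((Fintype.card (Fin d → Fin n) : ℕ) : ℝ) = (n : ℝ) ^ d := by simp
  set M : ℝ := (n : ℝ) ^ d with hM
  have hMpos : 0 < M := by positivity
  have hinv : ∑ x : Fin d → Fin n, (vol (J x))⁻¹ = k := by
    rw [← Finset.sum_fiberwise (s := Finset.univ) (g := J)]
    have : ∀ j ∈ (Finset.univ : Finset (Fin k)),
        ∑ x ∈ Finset.univ.filter (fun x => J x = j), (vol (J x))⁻¹ = 1 := by
      intro j _
      have h1 : ∀ x ∈ Finset.univ.filter (fun x => J x = j), (vol (J x))⁻¹ = (vol j)⁻¹ := by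
        intro x hx
        rw [(Finset.mem_filter.mp hx).2]
      rw [Finset.sum_congr rfl h1, Finset.sum_const, nsmul_eq_mul, hfib]
      exact mul_inv_cancel₀ (hvpos j).ne'
    rw [Finset.sum_congr rfl this]
    simp
  -- Jensen
  have hjen : ∑ x : Fin d → Fin n, Real.log (M / vol (J x)) ≤ M * Real.log k := by
    have h1 : ∀ x ∈ (Finset.univ : Finset (Fin d → Fin n)),
        Real.log (M / vol (J x)) ≤ Real.log k + (M / k * (vol (J x))⁻¹ - 1) :=
      fun x _ => jensen_term hMpos hkr (hvpos (J x))
    refine (Finset.sum_le_sum h1).trans ?_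
    rw [Finset.sum_add_distrib, Finset.sum_sub_distrib, ← Finset.mul_sum, hinv]
    simp only [Finset.sum_const, Finset.card_univ, nsmul_eq_mul, mul_one]
    rw [hX]
    have : M / k * k = M := div_mul_cancel₀ _ hkr.ne'
    linarith
  -- expand
  have hexp : ∑ x : Fin d → Fin n, Real.log (M / vol (J x)) =
      ∑ i : Fin d, ∑ x : Fin d → Fin n, (Real.log n - Real.log ((P (J x) i).card : ℝ)) := by
    rw [Finset.sum_comm]
    refine Finset.sum_congr rfl fun x _ => ?_
    rw [Real.log_div hMpos.ne' (hvpos _).ne', hM, Real.log_pow, hvol,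
      Real.log_prod (fun i _ => (hcpos _ i).ne'), Finset.sum_sub_distrib]
    simp
  have hline : ∀ i : Fin d, ∑ x : Fin d → Fin n, Real.log ((P (J x) i).card : ℝ) ≤
      M * (((n : ℝ) - 2) / n * Real.log ((n : ℝ) - 2)) := by
    intro i
    have h1 := sum_update (fun x => Real.log ((P (J x) i).card : ℝ)) i
    have h2 : ∀ x ∈ (Finset.univ : Finset (Fin d → Fin n)),
        ∑ y : Fin n, Real.log ((P (J (Function.update x i y)) i).card : ℝ) ≤
          ((n : ℝ) - 2) * Real.log ((n : ℝ) - 2) := by
      intro x _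
      apply line hn (fun y => P (J (Function.update x i y)) i)
      · intro y
        have := hJ (Function.update x i y) i
        simpa using this
      · intro y z hz
        have h3 : J (Function.update x i z) = J (Function.update x i y) := by
          symm
          apply hJu
          intro i'
          by_cases h : i' = i
          · subst h; simpa using hz
          · have := hJ (Function.update x i y) i'
            simp only [Function.update_of_ne h] at this ⊢
            exact this
        simp only [h3]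
      · intro y; exact (hP _ i).1
      · intro y; exact (hP _ i).2
    have h4 := Finset.sum_le_sum h2
    rw [h1, Finset.sum_const, Finset.card_univ, nsmul_eq_mul, hX] at h4
    have h5 : ∑ x : Fin d → Fin n, Real.log ((P (J x) i).card : ℝ) ≤
        (M * (((n : ℝ) - 2) * Real.log ((n : ℝ) - 2))) / n := by
      rw [le_div_iff₀ hnr, mul_comm]
      exact h4
    refine h5.trans (le_of_eq ?_)
    ring
  rw [hexp] at hjen
  have hfin : (d : ℝ) * (M * (Real.log n - ((n : ℝ) - 2) / n * Real.log ((n : ℝ) - 2))) ≤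
      M * Real.log k := by
    refine le_trans ?_ hjen
    have : (d : ℝ) * (M * (Real.log n - ((n : ℝ) - 2) / n * Real.log ((n : ℝ) - 2))) =
        ∑ _i : Fin d, (M * (Real.log n - ((n : ℝ) - 2) / n * Real.log ((n : ℝ) - 2))) := by
      simp
    rw [this]
    refine Finset.sum_le_sum fun i _ => ?_
    rw [Finset.sum_sub_distrib, Finset.sum_const, Finset.card_univ, nsmul_eq_mul, hX, mul_sub]
    linarith [hline i]
  have : M * ((d : ℝ) * (Real.log n - ((n : ℝ) - 2) / n * Real.log ((n : ℝ) - 2))) ≤
      M * Real.log k := by linarith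
  exact le_of_mul_le_mul_left this hMpos

/-- For odd `n ≥ 3` every partition of `[n]^d` into odd proper boxes has at least
`(n / (n-2)^((n-2)/n))^d` parts. -/
theorem result (n : ℕ) (hn : Odd n) (h3 : 3 ≤ n) (d : ℕ) :
    ((n : ℝ) / ((n : ℝ) - 2) ^ (((n : ℝ) - 2) / n)) ^ d ≤
      ((sInf {k : ℕ | ∃ P : Fin k → Fin d → Finset (Fin n),
        (∀ j i, Odd (P j i).card ∧ P j i ≠ Finset.univ) ∧
        ∀ x : Fin d → Fin n, ∃! j, ∀ i, x i ∈ P j i} : ℕ) : ℝ) := by
  classical
  set S := {k : ℕ | ∃ P : Fin k → Fin d → Finset (Fin n),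
        (∀ j i, Odd (P j i).card ∧ P j i ≠ Finset.univ) ∧
        ∀ x : Fin d → Fin n, ∃! j, ∀ i, x i ∈ P j i} with hS
  have hne : S.Nonempty := by
    refine ⟨Fintype.card (Fin d → Fin n), fun j i => {(Fintype.equivFin (Fin d → Fin n)).symm j i},
      ?_, ?_⟩
    · intro j i
      refine ⟨by simp, ?_⟩
      intro h
      have := congrArg Finset.card h
      simp at this
      omega
    · intro x
      refine ⟨Fintype.equivFin (Fin d → Fin n) x, ?_, ?_⟩
      · intro i; simp
      · intro j hj
        have : x = (Fintype.equivFin (Fin d → Fin n)).symm j := by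
          funext i
          simpa using hj i
        rw [this]; simp
  obtain ⟨P, hP, hpart⟩ := Nat.sInf_mem hne
  obtain ⟨hk, hlog⟩ := log_bound hn P hP hpart
  have hn3 : (3 : ℝ) ≤ n := by exact_mod_cast h3
  have hn2 : (0 : ℝ) < (n : ℝ) - 2 := by linarith
  have hkr : (0 : ℝ) < ((sInf S : ℕ) : ℝ) := by exact_mod_cast hk
  have hbase : (0 : ℝ) < (n : ℝ) / ((n : ℝ) - 2) ^ (((n : ℝ) - 2) / n) :=
    div_pos (by linarith) (Real.rpow_pos_of_pos hn2 _)
  rw [← Real.log_le_log_iff (pow_pos hbase d) hkr, Real.log_pow,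
    Real.log_div (by linarith) (Real.rpow_pos_of_pos hn2 _).ne', Real.log_rpow hn2]
  exact hlog

end Pool.Agent.Results.MP_f95cc0_co.EntropyLowerBound
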